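import Pool.Agent.Helper30.Full.GoalsG
import Pool.Agent.Helper51.ProP2.Rk
import Pool.Agent.Helper51.ProP2.Open
import Pool.Agent.Helper17.ProP2.F1
import Pool.Agent.Helper11.ProP2.Frat

/-!
# C1: an open subgroup acts trivially on some `V^(p^k) / V^(p^(k+1))`
-/

set_option autoImplicit false
set_option linter.unusedSectionVars false

namespace Pool.Agent.Helper67.FullC1

open Pool.Agent.Helper30.Full Pool.Agent.Helper85.ProP Pool.Agent.Helper30.ProP
  Pool.Agent.Helper17.ProP2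

universe u

section alg

variable {G : Type u} [Group G]

/-- the `n`-th powers of the elements of the abelian subgroup `V` -/
def PwS (V : Subgroup G) (hab : ∀ a ∈ V, ∀ b ∈ V, a * b = b * a) (n : ℕ) : Subgroup G where
  carrier := {x | ∃ v ∈ V, v ^ n = x}
  one_mem' := ⟨1, V.one_mem, one_pow _⟩
  mul_mem' := by
    rintro _ _ ⟨a, ha, rfl⟩ ⟨b, hb, rfl⟩
    exact ⟨a * b, V.mul_mem ha hb, Commute.mul_pow (hab a ha b hb) n⟩
  inv_mem' := by
    rintro _ ⟨a, ha, rfl⟩
    exact ⟨a⁻¹, V.inv_mem ha, inv_pow _ _⟩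

variable {V : Subgroup G} (hab : ∀ a ∈ V, ∀ b ∈ V, a * b = b * a)

lemma mem_PwS {n : ℕ} {x : G} : x ∈ PwS V hab n ↔ ∃ v ∈ V, v ^ n = x := Iff.rfl

lemma PwS_le (n : ℕ) : PwS V hab n ≤ V := by
  rintro _ ⟨v, hv, rfl⟩
  exact V.pow_mem hv n

lemma PwS_one : PwS V hab 1 = V := by
  ext x
  constructor
  · rintro ⟨v, hv, rfl⟩
    rwa [pow_one]
  · intro hx
    exact ⟨x, hx, pow_one x⟩

lemma PwS_mono {m n : ℕ} (h : m ∣ n) : PwS V hab n ≤ PwS V hab m := by
  rintro _ ⟨v, hv, rfl⟩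
  obtain ⟨c, rfl⟩ := h
  exact ⟨v ^ c, V.pow_mem hv c, by rw [← pow_mul, mul_comm]⟩

lemma PwS_pow {m n : ℕ} {x : G} (hx : x ∈ PwS V hab m) : x ^ n ∈ PwS V hab (m * n) := by
  obtain ⟨v, hv, rfl⟩ := hx
  exact ⟨v, hv, pow_mul _ _ _⟩

lemma PwS_normal (hV : V.Normal) (n : ℕ) : (PwS V hab n).Normal := by
  constructor
  rintro _ ⟨v, hv, rfl⟩ g
  exact ⟨g * v * g⁻¹, hV.conj_mem v hv g, conj_pow⟩

lemma cm_mul_left (a b u : G) : cm (a * b) u = a * cm b u * a⁻¹ * cm a u := by
  unfold cm; group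

lemma cm_inv_left (a u : G) : cm a⁻¹ u = a⁻¹ * (cm a u)⁻¹ * a := by
  unfold cm; group

lemma cm_conj_left (h a u : G) : cm (h * a * h⁻¹) u = h * cm a (h⁻¹ * u * h) * h⁻¹ := by
  unfold cm; group

/-- the elements acting trivially on `A` modulo `B` -/
def Ct (A B : Subgroup G) (hB : B.Normal) : Subgroup G where
  carrier := {g | ∀ u ∈ A, cm g u ∈ B}
  one_mem' := fun u _ => by
    have : cm (1 : G) u = 1 := by unfold cm; group
    rw [this]; exact B.one_mem
  mul_mem' := fun {a b} ha hb u hu => by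
    rw [cm_mul_left]
    exact B.mul_mem (hB.conj_mem _ (hb u hu) a) (ha u hu)
  inv_mem' := fun {a} ha u hu => by
    rw [cm_inv_left]
    have h := hB.conj_mem _ (B.inv_mem (ha u hu)) a⁻¹
    rwa [inv_inv] at h

lemma mem_Ct {A B : Subgroup G} {hB : B.Normal} {g : G} : g ∈ Ct A B hB ↔ ∀ u ∈ A, cm g u ∈ B :=
  Iff.rfl

lemma Ct_normal {A B : Subgroup G} (hA : A.Normal) (hB : B.Normal) : (Ct A B hB).Normal := by
  constructor
  intro g hg h u hu
  rw [cm_conj_left]
  have h1 := hA.conj_mem u hu h⁻¹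
  rw [inv_inv] at h1
  exact hB.conj_mem _ (hg _ h1) h

lemma cm_mem (hV : V.Normal) (g : G) {v : G} (hv : v ∈ V) : cm g v ∈ V :=
  V.mul_mem (hV.conj_mem v hv g) (V.inv_mem hv)

include hab in
/-- `cm g` is multiplicative on `V` -/
lemma cm_mul_right (hV : V.Normal) (g : G) {a b : G} (ha : a ∈ V) (hb : b ∈ V) :
    cm g (a * b) = cm g a * cm g b := by
  have h1 : cm g (a * b) = cm g a * (a * cm g b * a⁻¹) := by unfold cm; group
  have h2 : a * cm g b = cm g b * a := hab a ha _ (cm_mem hV g hb)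
  rw [h1, h2, mul_inv_cancel_right]

include hab in
lemma cm_pow_right (hV : V.Normal) (g : G) {a : G} (ha : a ∈ V) (n : ℕ) :
    cm g (a ^ n) = cm g a ^ n := by
  induction n with
  | zero => unfold cm; simp
  | succ n ih => rw [pow_succ, cm_mul_right hab hV g (V.pow_mem ha n) ha, ih, pow_succ]

/-- the induction step -/
lemma step (hV : V.Normal) {p k j : ℕ} (hj : 1 ≤ j) (C : Subgroup G)
    (hC : C = Ct (PwS V hab (p ^ k)) (PwS V hab (p ^ (k + j))) (PwS_normal hab hV _)) :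
    (∀ a ∈ C, a ^ p ∈
      Ct (PwS V hab (p ^ k)) (PwS V hab (p ^ (k + (j + 1)))) (PwS_normal hab hV _)) ∧
    ∀ a ∈ C, ∀ b ∈ C, cm a b ∈
      Ct (PwS V hab (p ^ k)) (PwS V hab (p ^ (k + (j + 1)))) (PwS_normal hab hV _) := by
  set B' := PwS V hab (p ^ (k + (j + 1))) with hB'
  have hB'n : B'.Normal := PwS_normal hab hV _
  -- the key identity
  have hinC : ∀ a ∈ C, ∀ u ∈ PwS V hab (p ^ k), cm a u ∈ PwS V hab (p ^ (k + j)) := by
    intro a ha u hu
    rw [hC] at ha
    exact ha u hu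
  have key : ∀ a ∈ C, ∀ b ∈ C, ∀ u ∈ PwS V hab (p ^ k),
      ((cm (a * b) u : G) : G ⧸ B') = (cm a u : G) * (cm b u : G) := by
    intro a ha b hb u hu
    obtain ⟨v, hv, hvb⟩ := hinC b hb u hu
    have hvk : v ^ p ^ k ∈ PwS V hab (p ^ k) := ⟨v, hv, rfl⟩
    have h1 : cm a (cm b u) ∈ B' := by
      have h2 : cm b u = (v ^ p ^ k) ^ p ^ j := by rw [← pow_mul, ← pow_add, hvb]
      rw [h2, cm_pow_right hab hV a (V.pow_mem hv _)]
      have h3 := PwS_pow hab (n := p ^ j) (hinC a ha _ hvk)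
      refine PwS_mono hab ?_ h3
      rw [← pow_add]
      exact pow_dvd_pow p (by omega)
    have hcbV : cm b u ∈ V := cm_mem hV b (PwS_le hab _ hu)
    have hcaV : cm a u ∈ V := cm_mem hV a (PwS_le hab _ hu)
    have h4 : cm (a * b) u = cm a (cm b u) * (cm a u * cm b u) := by
      rw [hab _ hcaV _ hcbV]
      rw [cm_mul_left]
      unfold cm
      group
    rw [h4, QuotientGroup.mk_mul, (QuotientGroup.eq_one_iff _).2 h1, one_mul, QuotientGroup.mk_mul]
  have hVn : ∀ a : G, ∀ u ∈ PwS V hab (p ^ k), cm a u ∈ V := fun a u hu =>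
    cm_mem hV a (PwS_le hab _ hu)
  let φ : (u : G) → u ∈ PwS V hab (p ^ k) → (C →* G ⧸ B') := fun u hu =>
    MonoidHom.mk' (fun a : C => ((cm (a : G) u : G) : G ⧸ B')) (fun a b => key a a.2 b b.2 u hu)
  have hφ : ∀ u hu (a : C), φ u hu a = ((cm (a : G) u : G) : G ⧸ B') := fun _ _ _ => rfl
  refine ⟨?_, ?_⟩
  · intro a ha u hu
    have h1 : φ u hu (⟨a, ha⟩ ^ p) = 1 := by
      rw [map_pow, hφ u hu]
      show (((cm a u) ^ p : G) : G ⧸ B') = 1
      rw [QuotientGroup.eq_one_iff]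
      have h2 := PwS_pow hab (n := p) (hinC a ha u hu)
      rwa [← pow_succ] at h2
    rw [hφ u hu] at h1
    exact (QuotientGroup.eq_one_iff _).1 h1
  · intro a ha b hb u hu
    have h1 : φ u hu (⟨a, ha⟩ * ⟨b, hb⟩ * (⟨a, ha⟩)⁻¹ * (⟨b, hb⟩)⁻¹) = 1 := by
      rw [map_mul, map_mul, map_mul, map_inv, map_inv]
      have h2 : φ u hu ⟨a, ha⟩ * φ u hu ⟨b, hb⟩ = φ u hu ⟨b, hb⟩ * φ u hu ⟨a, ha⟩ := by
        rw [hφ u hu, hφ u hu, ← QuotientGroup.mk_mul, ← QuotientGroup.mk_mul]
        show (((cm a u) * cm b u : G) : G ⧸ B') = ((cm b u * cm a u : G) : G ⧸ B')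
        rw [hab _ (hVn a u hu) _ (hVn b u hu)]
      rw [h2]
      group
    rw [hφ u hu] at h1
    exact (QuotientGroup.eq_one_iff _).1 h1

end alg

section top

variable {G : Type u} [Group G] [TopologicalSpace G] [IsTopologicalGroup G] [CompactSpace G]
  [T2Space G] [TotallyDisconnectedSpace G]

variable {V : Subgroup G} (hab : ∀ a ∈ V, ∀ b ∈ V, a * b = b * a)

lemma PwS_closed (hVc : IsClosed (V : Set G)) (n : ℕ) : IsClosed (PwS V hab n : Set G) := by
  have h1 : (PwS V hab n : Set G) = (fun x : G => x ^ n) '' (V : Set G) := rfl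
  rw [h1]
  exact (hVc.isCompact.image (by fun_prop)).isClosed

lemma Ct_closed {A B : Subgroup G} (hB : B.Normal) (hBc : IsClosed (B : Set G)) :
    IsClosed (Ct A B hB : Set G) := by
  have h1 : (Ct A B hB : Set G) = ⋂ u : A, (fun g : G => cm g (u : G)) ⁻¹' (B : Set G) := by
    ext g
    simp only [Set.mem_iInter, Set.mem_preimage, SetLike.mem_coe, Subtype.forall]
    rfl
  rw [h1]
  refine isClosed_iInter fun u => hBc.preimage ?_
  unfold cm
  fun_prop

/-- `C_j` is open for `j ≥ 1` -/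
lemma Ct_open {p : ℕ} [Fact p.Prime] (hPP : PP p G) (hFG : FGG G) (hV : V.Normal)
    {k : ℕ} (W : Subgroup G) (hW : IsOpen (W : Set G))
    (h : ∀ g ∈ W, ∀ v ∈ V, ∃ u ∈ V, cm g (v ^ p ^ k) = u ^ p ^ (k + 1)) (j : ℕ) (hj : 1 ≤ j) :
    IsOpen (Ct (PwS V hab (p ^ k)) (PwS V hab (p ^ (k + j))) (PwS_normal hab hV _) : Set G) := by
  induction j, hj using Nat.le_induction with
  | base =>
    refine Subgroup.isOpen_mono (H₁ := W) ?_ hW
    rintro g hg _ ⟨v, hv, rfl⟩
    obtain ⟨u, hu, hu'⟩ := h g hg v hv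
    exact ⟨u, hu, hu'.symm⟩
  | succ j hj ih =>
    set C := Ct (PwS V hab (p ^ k)) (PwS V hab (p ^ (k + j))) (PwS_normal hab hV _) with hC
    set C' := Ct (PwS V hab (p ^ k)) (PwS V hab (p ^ (k + (j + 1)))) (PwS_normal hab hV _) with hC'
    obtain ⟨hs1, hs2⟩ := step hab hV (p := p) (k := k) hj C hC
    have hCn : C.Normal := Ct_normal (PwS_normal hab hV _) (PwS_normal hab hV _)
    have hCc : IsClosed (C : Set G) := Subgroup.isClosed_of_isOpen C ih
    have hCcomp : CompactSpace C := isCompact_iff_compactSpace.1 hCc.isCompact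
    obtain ⟨hPPC, hFGC, -⟩ := Pool.Agent.Helper51.ProP2.stmtOpen p G hPP C ih hCn
    obtain ⟨d, F, hFo, hF⟩ := Pool.Agent.Helper11.ProP2.frat_open p C hPPC (hFGC hFG)
    have hle : F ≤ C'.subgroupOf C := by
      intro g hg
      obtain ⟨a, b, c, hg'⟩ := (hF g).1 hg
      rw [hg']
      refine Subgroup.mul_mem _ ?_ (Subgroup.list_prod_mem _ ?_)
      · rw [Subgroup.mem_subgroupOf]
        exact hs1 a a.2
      · intro x hx
        rw [List.mem_ofFn] at hx
        obtain ⟨i, rfl⟩ := hx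
        rw [Subgroup.mem_subgroupOf]
        exact hs2 (b i) (b i).2 (c i) (c i).2
    have ho : IsOpen ((C'.subgroupOf C : Subgroup C) : Set C) := Subgroup.isOpen_mono hle hFo
    have ho2 : IsOpen (((C'.subgroupOf C).map C.subtype : Subgroup G) : Set G) := by
      have h6 : (((C'.subgroupOf C).map C.subtype : Subgroup G) : Set G) =
        Subtype.val '' ((C'.subgroupOf C : Subgroup C) : Set C) := rfl
      rw [h6]
      exact ih.isOpenEmbedding_subtypeVal.isOpenMap _ ho
    refine Subgroup.isOpen_mono ?_ ho2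
    rintro _ ⟨x, hx, rfl⟩
    exact hx

/-- restriction of `FGmod` to a closed subgroup -/
lemma FGmod_sub {p : ℕ} [Fact p.Prime] (hPP : PP p G) {N L : Subgroup G} (hN : N.Normal)
    (hNc : IsClosed (N : Set G)) (hL : L.Normal) (hLc : IsClosed (L : Set G)) (hNL : N ≤ L)
    (hcm : ∀ a ∈ L, ∀ b ∈ L, cm a b ∈ N) (h : FGmod N L) (K : Subgroup G)
    (hK : IsClosed (K : Set G)) : FGmod (N.subgroupOf K) (L.subgroupOf K) := by
  classical
  obtain ⟨r, hr⟩ := Pool.Agent.Helper51.ProP2.stmtRk p G hPP N L hN hNc hL hLc hNL hcm h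
  obtain ⟨t, ht1, ht2⟩ := hr K hK
  refine ⟨Finset.univ.image fun i => (⟨t i, (ht1 i).1⟩ : K), ?_, ?_⟩
  · intro x hx
    rw [Finset.mem_coe, Finset.mem_image] at hx
    obtain ⟨i, -, rfl⟩ := hx
    show t i ∈ L
    exact (ht1 i).2
  · intro H hH hNH hF x hx
    have hKe : Topology.IsClosedEmbedding (Subtype.val : K → G) := hK.isClosedEmbedding_subtypeVal
    have hM : IsClosed ((H.map K.subtype : Subgroup G) : Set G) := by
      have h6 : ((H.map K.subtype : Subgroup G) : Set G) = Subtype.val '' (H : Set K) := rfl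
      rw [h6]
      exact hKe.isClosedMap _ hH
    have h1 := ht2 (H.map K.subtype) hM (by
      rintro y ⟨hyK, hyN⟩
      exact ⟨⟨y, hyK⟩, hNH hyN, rfl⟩) (by
      intro i
      refine ⟨⟨t i, (ht1 i).1⟩, hF ?_, rfl⟩
      rw [Finset.mem_coe, Finset.mem_image]
      exact ⟨i, Finset.mem_univ _, rfl⟩)
    have h2 : (x : G) ∈ K ⊓ L := ⟨x.2, hx⟩
    obtain ⟨y, hy, hyx⟩ := h1 h2
    have h3 : y = x := Subtype.ext hyx
    rwa [h3] at hy

end top

theorem stmtC1 (hCE : StmtCE.{u}) : StmtC1.{u} := by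
  intro p _ G _ _ _ _ _ _ hPP hFG V hV hVc hab n hFES k W hW hact
  classical
  obtain ⟨N, hN0, hNn, hNnc, hNs⟩ := hFES
  set m : ℕ := 2 * (k + n) with hm
  set j : ℕ := m + 1 with hj
  set U := PwS V hab (p ^ k) with hU
  set Y := PwS V hab (p ^ (k + j)) with hY
  have hUn : U.Normal := PwS_normal hab hV _
  have hYn : Y.Normal := PwS_normal hab hV _
  have hUc : IsClosed (U : Set G) := PwS_closed hab hVc _
  have hYc : IsClosed (Y : Set G) := PwS_closed hab hVc _
  set K := Ct U Y hYn with hK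
  have hKo : IsOpen (K : Set G) := Ct_open hab hPP hFG hV W hW hact j (by omega)
  have hKn : K.Normal := Ct_normal hUn hYn
  have hKc : IsClosed (K : Set G) := Subgroup.isClosed_of_isOpen K hKo
  have hKcomp : CompactSpace K := isCompact_iff_compactSpace.1 hKc.isCompact
  obtain ⟨hPPK, hFGK, -⟩ := Pool.Agent.Helper51.ProP2.stmtOpen p G hPP K hKo hKn
  -- the series
  let PN : ℕ → Subgroup G := fun i => if i < k then PwS V hab (p ^ (k - i)) else N (i - k)
  have hPN1 : ∀ i ≤ k, PN i = PwS V hab (p ^ (k - i)) := by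
    intro i hi
    show (if i < k then PwS V hab (p ^ (k - i)) else N (i - k)) = _
    split_ifs with h
    · rfl
    · have h1 : i = k := by omega
      rw [h1, Nat.sub_self, hN0, pow_zero, PwS_one]
  have hPN2 : ∀ i, k ≤ i → PN i = N (i - k) := by
    intro i hi
    show (if i < k then PwS V hab (p ^ (k - i)) else N (i - k)) = _
    rw [if_neg (by omega)]
  have hFESK : FES p (U.subgroupOf K) (k + n) := by
    refine ⟨fun i => (PN i).subgroupOf K, ?_, ?_, ?_, ?_⟩
    · show (PN 0).subgroupOf K = _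
      rw [hPN1 0 (by omega), Nat.sub_zero]
    · show (PN (k + n)).subgroupOf K = ⊤
      rw [hPN2 _ (by omega), Nat.add_sub_cancel_left, hNn]
      rfl
    · intro i
      have h1 : (PN i).Normal ∧ IsClosed (PN i : Set G) := by
        rcases le_total i k with h | h
        · rw [hPN1 i h]
          exact ⟨PwS_normal hab hV _, PwS_closed hab hVc _⟩
        · rw [hPN2 i h]
          exact hNnc _
      obtain ⟨h2, h3⟩ := h1
      exact ⟨inferInstance, h3.preimage continuous_subtype_val⟩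
    · intro i hi
      show (PN i).subgroupOf K ≤ (PN (i + 1)).subgroupOf K ∧ _
      rcases Nat.lt_or_ge i k with h | h
      · have e1 := hPN1 i (by omega)
        have e2 := hPN1 (i + 1) (by omega)
        have e3 : k - i = (k - (i + 1)) + 1 := by omega
        have hle : PN i ≤ PN (i + 1) := by
          rw [e1, e2]
          exact PwS_mono hab (pow_dvd_pow p (by omega))
        refine ⟨fun x hx => hle hx, ?_, Or.inl ?_⟩
        · intro a ha b hb
          have ha' : (a : G) ∈ PN (i + 1) := ha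
          have hb' : (b : G) ∈ PN (i + 1) := hb
          rw [e2] at ha' hb'
          have h1 := hab _ (PwS_le hab _ ha') _ (PwS_le hab _ hb')
          have h2 : (cm a b : K) = 1 := by
            apply Subtype.ext
            show (a : G) * b * (a : G)⁻¹ * (b : G)⁻¹ = 1
            rw [h1]; group
          show (cm a b : K) ∈ (PN i).subgroupOf K
          rw [h2]
          exact Subgroup.one_mem _
        · intro a ha
          have ha' : (a : G) ∈ PN (i + 1) := ha
          rw [e2] at ha'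
          show (a : G) ^ p ∈ PN i
          rw [e1, e3, pow_succ]
          exact PwS_pow hab ha'
      · have e1 := hPN2 i h
        have e2 := hPN2 (i + 1) (by omega)
        have e3 : i + 1 - k = (i - k) + 1 := by omega
        rw [e3] at e2
        obtain ⟨h1, h2, h3⟩ := hNs (i - k) (by omega)
        rw [← e1, ← e2] at h1 h2 h3
        refine ⟨fun x hx => h1 hx, fun a ha b hb => h2 a ha b hb, ?_⟩
        rcases h3 with h3 | h3
        · exact Or.inl fun a ha => h3 a ha
        · right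
          have n1 := hNnc (i - k)
          have n2 := hNnc (i - k + 1)
          rw [← e1] at n1
          rw [← e2] at n2
          exact FGmod_sub hPP n1.1 n1.2 n2.1 n2.2 h1 h2 h3 K hKc
  have hYU : Y ≤ U := PwS_mono hab (pow_dvd_pow p (by omega))
  have hUK : U ≤ K := by
    intro x hx u hu
    have h1 := hab _ (PwS_le hab _ hx) _ (PwS_le hab _ hu)
    have h2 : cm x u = 1 := by unfold cm; rw [h1]; group
    rw [h2]; exact Y.one_mem
  obtain ⟨F, hFU, hF⟩ := hCE p K hPPK (hFGK hFG) (Y.subgroupOf K) (U.subgroupOf K) inferInstance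
    (hYc.preimage continuous_subtype_val) inferInstance (hUc.preimage continuous_subtype_val)
    (fun x hx => hYU hx) (by
      intro z hz g
      have h1 : cm (g : G) (z : G) ∈ Y := g.2 z hz
      have h2 := Y.inv_mem h1
      show (z : G) * g * (z : G)⁻¹ * (g : G)⁻¹ ∈ Y
      have h3 : (z : G) * g * (z : G)⁻¹ * (g : G)⁻¹ = (cm (g : G) (z : G))⁻¹ := by
        unfold cm; group
      rwa [h3]) (k + n) hFESK
  refine ⟨k + m, F.image Subtype.val, ?_, ?_⟩
  · intro x hx
    rw [Finset.coe_image] at hx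
    obtain ⟨y, hy, rfl⟩ := hx
    exact PwS_le hab _ (hFU hy)
  · intro H hH _ hFH v hv
    set Q : Subgroup G := H ⊓ V with hQ
    have hQc : IsClosed (Q : Set G) := hH.inter hVc
    have hbase : ∀ v ∈ V, ∃ q ∈ Q, ∃ w ∈ V, v ^ p ^ (k + m) = q * w ^ p ^ (k + m + 1) := by
      intro v hv
      have h1 := hF ((Q ⊔ Y).subgroupOf K) ((closed_sup hQc hYn hYc).preimage continuous_subtype_val)
        (fun x hx => (le_sup_right : Y ≤ Q ⊔ Y) hx) (by
          intro x hx
          have h2 : (x : G) ∈ Q := by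
            refine ⟨hFH ?_, PwS_le hab _ (hFU hx)⟩
            rw [Finset.coe_image]
            exact ⟨x, hx, rfl⟩
          exact (le_sup_left : Q ≤ Q ⊔ Y) h2)
      have hvU : v ^ p ^ k ∈ U := ⟨v, hv, rfl⟩
      have h3 := h1 ⟨v ^ p ^ k, hUK hvU⟩ hvU
      have h4 : (v ^ p ^ k) ^ p ^ (2 * (k + n)) ∈ Q ⊔ Y := h3
      rw [← pow_mul, ← pow_add, ← hm] at h4
      obtain ⟨q, hq, y, ⟨w, hw, hwy⟩, hqy⟩ := mem_sup_dec hYn h4
      exact ⟨q, hq, w, hw, by rw [← hqy, ← hwy, hj, add_assoc]⟩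
    have hall : ∀ i : ℕ, ∃ q ∈ Q, ∃ w ∈ V, v ^ p ^ (k + m) = q * w ^ p ^ (k + m + i) := by
      intro i
      induction i with
      | zero => exact ⟨1, Q.one_mem, v, hv, by rw [one_mul, add_zero]⟩
      | succ i ih =>
        obtain ⟨q, hq, w, hw, e⟩ := ih
        obtain ⟨q', hq', w', hw', e'⟩ := hbase w hw
        refine ⟨q * q' ^ p ^ i, Q.mul_mem hq (Q.pow_mem hq' _), w', hw', ?_⟩
        have hc : Commute q' (w' ^ p ^ (k + m + 1)) :=
          hab _ hq'.2 _ (V.pow_mem hw' _)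
        have e2 : w ^ p ^ (k + m + i) = q' ^ p ^ i * w' ^ p ^ (k + m + (i + 1)) := by
          rw [pow_add p (k + m) i, pow_mul, e', hc.mul_pow, ← pow_mul, ← pow_add]
          congr 3
          omega
        rw [e, e2, mul_assoc]
    by_contra hx
    have ho : IsOpen ((fun y : G => v ^ p ^ (k + m) * y⁻¹) ⁻¹' ((H : Set G)ᶜ)) :=
      hH.isOpen_compl.preimage (by fun_prop)
    obtain ⟨O, hO⟩ := ProfiniteGrp.exist_openNormalSubgroup_sub_open_nhds_of_one ho (by
      show v ^ p ^ (k + m) * 1⁻¹ ∉ (H : Set G)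
      rw [inv_one, mul_one]
      exact hx)
    have hOn := O.isNormal'
    obtain ⟨t, ht⟩ := hPP O.toSubgroup O.isNormal' O.isOpen'
    obtain ⟨q, hq, w, hw, e⟩ := hall t
    have h1 : w ^ p ^ (k + m + t) ∈ O.toSubgroup := by
      rw [pow_add, pow_mul, ← ht]
      exact O.toSubgroup.pow_index_mem _
    apply hO h1
    show v ^ p ^ (k + m) * (w ^ p ^ (k + m + t))⁻¹ ∈ H
    rw [e, mul_inv_cancel_right]
    exact hq.1

end Pool.Agent.Helper67.FullC1
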