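import Pool.Agent.Helper30.Full.GoalsW

/-!
# W6: the choice of the parameter `l`
-/

set_option autoImplicit false
set_option linter.unusedSectionVars false

namespace Pool.Agent.Helper67.FullW6

open Pool.Agent.Helper30.Full

universe u

section

variable {p : ℕ} [Fact p.Prime] {d : ℕ} {X : Type u} [AddCommGroup X] [TopologicalSpace X]
  [IsTopologicalAddGroup X] [CompactSpace X] [T2Space X] (b : Act p d X)

lemma psi_apply (g : Fin d → ℤ_[p]) (n : ℕ) (x : X) :
    Psi b g n x = ∑ i ∈ Finset.range p, b.σ ((i * p ^ n) • g) x :=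
  AddMonoidHom.finsetSum_apply _ _ _

lemma cont_psi (g : Fin d → ℤ_[p]) (n : ℕ) : Continuous fun x : X => Psi b g n x := by
  have h : (fun x : X => Psi b g n x) =
      fun x => ∑ i ∈ Finset.range p, b.σ ((i * p ^ n) • g) x := by
    funext x; exact psi_apply b g n x
  rw [h]
  exact continuous_finsetSum _ fun i _ => cont_σ b _

lemma closed_range_psi (g : Fin d → ℤ_[p]) (n : ℕ) :
    IsClosed ((AddMonoidHom.range (Psi b g n)) : Set X) := by
  have h1 : ((AddMonoidHom.range (Psi b g n)) : Set X) = Set.range fun x : X => Psi b g n x := by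
    ext x; rfl
  rw [h1]
  exact (isCompact_range (cont_psi b g n)).isClosed

lemma T_psi (k g : Fin d → ℤ_[p]) (n : ℕ) (x : X) :
    b.T k (Psi b g n x) = Psi b g n (b.T k x) := by
  rw [psi_apply, psi_apply, map_sum]
  exact Finset.sum_congr rfl fun i _ => T_comm_σ_apply b _ _ _

lemma σ_psi (k g : Fin d → ℤ_[p]) (n : ℕ) (x : X) :
    b.σ k (Psi b g n x) = Psi b g n (b.σ k x) := by
  rw [psi_apply, psi_apply, map_sum]
  exact Finset.sum_congr rfl fun i _ => σ_comm_apply b _ _ _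

/-- Nakayama: `p^E X` is not contained in `p^(E+1) X + Ψ_n X` for large `n` -/
lemma ny {g : Fin d → ℤ_[p]} (hE : ExpW b g) (E : ℕ) : ∃ n₀ : ℕ, ∀ n ≥ n₀, ∃ x : X, ∀ y z : X,
    p ^ E • x ≠ p ^ (E + 1) • y + Psi b g n z := by
  obtain ⟨n₀, hn₀⟩ := hE E
  refine ⟨n₀, fun n hn => ?_⟩
  by_contra hcon
  push Not at hcon
  obtain ⟨x, hx⟩ := hn₀ n hn
  have h := nakayama b 0 (AddMonoidHom.range (nsmulAddMonoidHom (α := X) (p ^ E)))
    (AddMonoidHom.range (Psi b g n)) (closed_range_psi b g n)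
    (by
      rintro _ ⟨z, rfl⟩
      exact ⟨b.T 0 z, (T_psi b 0 g n z).symm⟩)
    (by
      rintro _ ⟨x', rfl⟩
      obtain ⟨y, z, hyz⟩ := hcon x'
      refine ⟨Psi b g n z, ⟨z, rfl⟩, 0, AddSubgroup.zero_mem _, p ^ E • y, ⟨y, rfl⟩, ?_⟩
      show p ^ E • x' = _
      rw [hyz, map_zero, pow_succ', mul_smul]
      abel)
  obtain ⟨y, hy⟩ := h (⟨x, rfl⟩ : p ^ E • x ∈ AddMonoidHom.range (nsmulAddMonoidHom (α := X) (p ^ E)))
  exact hx y hy.symm

/-- first claim -/
lemma first {g : Fin d → ℤ_[p]} {E n : ℕ} {x : X}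
    (hx : ∀ y z : X, p ^ E • x ≠ p ^ (E + 1) • y + Psi b g n z)
    {l : Fin d → ℤ_[p]} (hl : ∀ x, ∃ y z, b.T l x = p ^ (E + 1) • y + Psi b g n z) :
    ∀ y z, p ^ E • x ≠ b.T l y + Psi b g n z := by
  intro y z h
  obtain ⟨y', z', h'⟩ := hl y
  refine hx y' (z' + z) ?_
  rw [h, h', map_add, add_assoc]

/-- raising the exponent -/
lemma raise {g : Fin d → ℤ_[p]} {K K' n : ℕ} (hK : K ≤ K') {l : Fin d → ℤ_[p]}
    (h : ∀ x, ∃ y z, p ^ K • x = b.T l y + Psi b g n z) :
    ∀ x, ∃ y z, p ^ K' • x = b.T l y + Psi b g n z := by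
  intro x
  obtain ⟨y, z, hyz⟩ := h (p ^ (K' - K) • x)
  refine ⟨y, z, ?_⟩
  rw [← hyz, ← mul_smul, ← pow_add, Nat.add_sub_cancel' hK]

/-- lowering the exponent -/
lemma lower {K K' : ℕ} (hK : K ≤ K') (y : X) : ∃ y', p ^ K' • y = p ^ K • y' :=
  ⟨p ^ (K' - K) • y, by rw [← mul_smul, ← pow_add, Nat.add_sub_cancel' hK]⟩

lemma div_coord (k : Fin d → ℤ_[p]) (N : ℕ) (h : ∀ i, (p : ℤ_[p]) ^ N ∣ k i) :
    ∃ k' : Fin d → ℤ_[p], k = p ^ N • k' ∧ ∀ i, k i = 0 → k' i = 0 := by
  choose c hc using h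
  refine ⟨c, ?_, fun i hi => ?_⟩
  · funext i
    rw [hc i, Pi.smul_apply, nsmul_eq_mul, Nat.cast_pow]
  · have h1 := hc i
    rw [hi] at h1
    have h2 : (p : ℤ_[p]) ^ N ≠ 0 :=
      pow_ne_zero _ (by exact_mod_cast (Fact.out : p.Prime).ne_zero)
    rcases mul_eq_zero.1 h1.symm with h | h
    · exact absurd h h2
    · exact h

/-- small elements divisible by `p^N` -/
lemma small_div {s : ℕ} (H : HypW2 b s) (hS : ∀ h, Small b h → SqW b h) (N : ℕ)
    (r : Fin d → ℤ_[p]) (h0 : ∀ i : Fin d, (i : ℕ) < s → r i = 0)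
    (h : ∀ i, (p : ℤ_[p]) ^ N ∣ r i) (x : X) : ∃ y, b.T r x = p ^ (N + 2) • y := by
  obtain ⟨r', hr, hr'⟩ := div_coord r N h
  have hs : Small b r' := (H.small r').2 fun i hi => hr' i (h0 i hi)
  obtain ⟨y, hy⟩ := (hS r' hs N x).1
  obtain ⟨y', hy'⟩ := H.sm2 r' hs y
  refine ⟨y', ?_⟩
  rw [hr, hy, hy', ← mul_smul, ← pow_add]

end

theorem stmtW6 : StmtW6.{u} := by
  intro p _ d X _ _ _ _ _ b s H hE m hEst C n₀ hPad hS w
  have hs0 := H.s_pos
  have hsd := H.s_le
  obtain ⟨n₁, hn₁⟩ := ny b hE (w + 4)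
  by_cases hs2 : 2 ≤ s
  · -- case (a)
    set M : ℕ := w + 3 with hM
    set Cw : ℕ := 2 * p ^ m + p ^ m * (m + 1) with hCw
    refine ⟨2 * w + M + m + Cw + 2, max n₁ (m + 1), fun B hB => ?_⟩
    have hB1 : n₁ ≤ B := le_trans (le_max_left _ _) hB
    have hB2 : m + 1 ≤ B := le_trans (le_max_right _ _) hB
    let i1 : Fin d := ⟨1, by omega⟩
    let e1 : Fin d → ℤ_[p] := Pi.single i1 1
    have he1 : Unit' 1 s e1 := by
      refine ⟨i1, le_rfl, by show 1 < s; omega, ?_⟩
      have : e1 i1 = 1 := Pi.single_eq_same _ _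
      rw [this]
      intro hd
      exact (PadicInt.prime_p (p := p)).not_isUnit (isUnit_of_dvd_one hd)
    set L : ℕ := B + w + m + 2 + M with hL
    refine ⟨p ^ L • e1, fun β hβ1 hβ2 => ?_⟩
    have hup : ∀ x, ∃ y z, b.T (p ^ L • e1) x = p ^ (w + 4 + 1) • y + Psi b (e0 p d) β z := by
      intro x
      obtain ⟨y, z, hyz⟩ := hEst.up β L (by omega) (by omega) e1 x
      obtain ⟨y', hy'⟩ := lower (p := p) (K := w + 4 + 1) (K' := L - β - m) (by omega) y
      exact ⟨y', z, by rw [hyz, hy']⟩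
    have hlo : ∀ x, ∃ y z, p ^ (w + M + Cw) • x = b.T (p ^ L • e1) y + Psi b (e0 p d) β z :=
      raise b (K := L - β - m - 2 + Cw) (by omega)
        (hEst.lo β L (by omega) (by omega) e1 he1)
    refine ⟨?_, ?_⟩
    · obtain ⟨x, hx⟩ := hn₁ β (by omega)
      exact ⟨x, first b hx hup⟩
    · intro r hr0 hr1 hr2 x
      set ρ : ℕ := 2 * w + M + m + Cw + 2 with hρ
      -- decomposition of r
      let rm : Fin d → ℤ_[p] := fun i => if (i : ℕ) < s then r i else 0
      let rp : Fin d → ℤ_[p] := fun i => if (i : ℕ) < s then 0 else r i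
      have hr : r = rm + rp := by
        funext i
        show r i = (if (i : ℕ) < s then r i else 0) + (if (i : ℕ) < s then 0 else r i)
        split_ifs <;> simp
      obtain ⟨r', hr', -⟩ := div_coord rm (B + ρ) (by
        intro i
        show _ ∣ (if (i : ℕ) < s then r i else 0)
        split_ifs with hi
        · rcases Nat.eq_zero_or_pos (i : ℕ) with h | h
          · rw [hr0 i h]; exact dvd_zero _
          · exact hr1 i h hi
        · exact dvd_zero _)
      obtain ⟨y1, z1, h1⟩ := hEst.up β (B + ρ) (by omega) (by omega) r' x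
      obtain ⟨y1', h1'⟩ := lower (p := p) (K := w + M + Cw) (K' := B + ρ - β - m) (by omega) y1
      obtain ⟨y2, h2⟩ := small_div b H hS ρ rp (by
        intro i hi
        show (if (i : ℕ) < s then (0 : ℤ_[p]) else r i) = 0
        rw [if_pos hi]) (by
        intro i
        show _ ∣ (if (i : ℕ) < s then (0 : ℤ_[p]) else r i)
        split_ifs with hi
        · exact dvd_zero _
        · exact hr2 i (by omega)) x
      obtain ⟨y2', h2'⟩ := lower (p := p) (K := w + M + Cw) (K' := ρ + 2) (by omega) (b.σ rm y2)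
      obtain ⟨y, z, hyz⟩ := hlo (y1' + y2')
      refine ⟨y, z + z1, ?_⟩
      have h3 : b.T r x = b.T rm x + b.σ rm (b.T rp x) := by
        conv_lhs => rw [hr]
        exact T_add_apply b _ _ _
      have h4 : b.T rm x = p ^ (w + M + Cw) • y1' + Psi b (e0 p d) β z1 := by
        rw [hr', h1, h1']
      have h5 : b.σ rm (b.T rp x) = p ^ (w + M + Cw) • y2' := by
        rw [h2, map_nsmul, h2']
      rw [h3, h4, h5, map_add]
      rw [smul_add] at hyz
      generalize p ^ (w + M + Cw) • y1' = A at hyz ⊢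
      generalize p ^ (w + M + Cw) • y2' = A' at hyz ⊢
      rw [← add_assoc, ← hyz]
      abel
  · by_cases hd : 1 < d
    · -- case (b)
      have hs1 : s = 1 := by omega
      subst hs1
      set M : ℕ := w + 3 with hM
      refine ⟨M + C, max n₁ n₀, fun B hB => ?_⟩
      have hB1 : n₁ ≤ B := le_trans (le_max_left _ _) hB
      have hB2 : n₀ ≤ B := le_trans (le_max_right _ _) hB
      let i1 : Fin d := ⟨1, by omega⟩
      let e1 : Fin d → ℤ_[p] := Pi.single i1 1
      have he1 : e1 i1 = 1 := Pi.single_eq_same _ _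
      have he0 : ∀ i : Fin d, (i : ℕ) < 1 → e1 i = 0 := by
        intro i hi
        refine Pi.single_eq_of_ne ?_ _
        intro h
        rw [h] at hi
        exact absurd hi (by show ¬ (1 < 1); omega)
      have hsm : Small b e1 := (H.small e1).2 he0
      refine ⟨p ^ M • e1, fun β hβ1 hβ2 => ?_⟩
      have hup : ∀ x, ∃ y z, b.T (p ^ M • e1) x = p ^ (w + 4 + 1) • y + Psi b (e0 p d) β z := by
        intro x
        obtain ⟨y, hy⟩ := (hS e1 hsm M x).1
        obtain ⟨y', hy'⟩ := H.sm2 e1 hsm y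
        refine ⟨y', 0, ?_⟩
        rw [hy, hy', map_zero, add_zero, ← mul_smul, ← pow_add]
      have hlo : ∀ x, ∃ y z, p ^ (M + C) • x = b.T (p ^ M • e1) y + Psi b (e0 p d) β z := by
        intro x
        obtain ⟨y, z, hyz⟩ := hPad β (by omega) e1 he0 ⟨i1, by
          rw [he1]
          intro hd
          exact (PadicInt.prime_p (p := p)).not_isUnit (isUnit_of_dvd_one hd)⟩ x
        obtain ⟨y', hy'⟩ := (hS e1 hsm M y).2
        refine ⟨y', p ^ M • z, ?_⟩
        rw [pow_add, mul_smul, hyz, smul_add, hy', map_nsmul]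
      refine ⟨?_, ?_⟩
      · obtain ⟨x, hx⟩ := hn₁ β (by omega)
        exact ⟨x, first b hx hup⟩
      · intro r hr0 hr1 hr2 x
        obtain ⟨y, hy⟩ := small_div b H hS (M + C) r (fun i hi => hr0 i (by omega)) (by
          intro i
          rcases Nat.eq_zero_or_pos (i : ℕ) with h | h
          · rw [hr0 i h]; exact dvd_zero _
          · exact hr2 i h) x
        obtain ⟨y', hy'⟩ := lower (p := p) (K := M + C) (K' := M + C + 2) (by omega) y
        obtain ⟨y1, z1, h1⟩ := hlo y'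
        exact ⟨y1, z1, by rw [hy, hy', h1]⟩
    · -- case (c)
      obtain ⟨n₂, hn₂⟩ := hE (w + 4)
      refine ⟨0, n₂, fun B hB => ⟨0, fun β hβ1 hβ2 => ⟨?_, ?_⟩⟩⟩
      · obtain ⟨x, hx⟩ := hn₂ β (by omega)
        refine ⟨x, fun y z h => hx z ?_⟩
        rw [h, T_zero]
        simp
      · intro r hr0 hr1 hr2 x
        have hr : r = 0 := by
          funext i
          exact hr0 i (by have := i.2; omega)
        refine ⟨0, 0, ?_⟩
        rw [hr, T_zero]
        simp

end Pool.Agent.Helper67.FullW6
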